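import Mathlib
import Pool.Agent.helper5.LDH.Spec
import Pool.Agent.helper59.DM.DV

/-!
# Row CL1 of project LDH (MP_4467b5_nt): class one
-/

set_option autoImplicit false

open Complex MeasureTheory

namespace Pool.Agent.LDH

open Pool.Agent.helper84.DM Pool.Agent.helper78.ED Pool.Agent.DH

/-- size of the block coefficients -/
theorem CL1_coef {κ δ T Cd : ℝ} (hκ : 0 < κ) (hδ : 0 < δ) (hT : 1 ≤ T) (hCd : 1 ≤ Cd)
    (hd : ∀ n : ℕ, 1 ≤ n → d n ≤ Cd * (n : ℝ) ^ (κ / 3)) {k : ℕ} (hk : (k : ℝ) ≤ 4 / δ) {M : ℕ}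
    (hM : (2 * M : ℕ) ≤ T ^ (3 : ℝ)) {b : ℕ → ℂ} (hb : ∀ n, ‖b n‖ ≤ (T ^ κ) ^ k * d n ^ k) :
    ∑ n ∈ Finset.Ioc M (2 * M), ‖b n‖ ^ 2 ≤ Cd ^ (8 / δ) * (M * T ^ (16 * κ / δ)) := by
  have hT0 : 0 < T := by linarith
  have hCd0 : 0 < Cd := by linarith
  have h1 : ∀ n ∈ Finset.Ioc M (2 * M), ‖b n‖ ^ 2 ≤ Cd ^ (8 / δ) * T ^ (16 * κ / δ) := by
    intro n hn
    rw [Finset.mem_Ioc] at hn
    have hn1 : 1 ≤ n := by omega
    have hnr : (0 : ℝ) < n := by exact_mod_cast hn1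
    have hn2 : (n : ℝ) ≤ T ^ (3 : ℝ) := le_trans (by exact_mod_cast hn.2) hM
    have hdn : d n ≤ Cd * T ^ κ := by
      refine (hd n hn1).trans (mul_le_mul_of_nonneg_left ?_ hCd0.le)
      calc (n : ℝ) ^ (κ / 3) ≤ (T ^ (3 : ℝ)) ^ (κ / 3) :=
            Real.rpow_le_rpow hnr.le hn2 (by positivity)
        _ = T ^ κ := by
            rw [← Real.rpow_mul hT0.le]
            congr 1
            ring
    have hd0 : 0 ≤ d n := Nat.cast_nonneg _
    have h2 : ‖b n‖ ≤ (Cd * T ^ (2 * κ)) ^ k := by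
      refine (hb n).trans ?_
      rw [← mul_pow]
      refine pow_le_pow_left₀ (by positivity) ?_ k
      calc T ^ κ * d n ≤ T ^ κ * (Cd * T ^ κ) := mul_le_mul_of_nonneg_left hdn (by positivity)
        _ = Cd * T ^ (2 * κ) := by
            rw [two_mul, Real.rpow_add hT0]
            ring
    have h3 : (1 : ℝ) ≤ Cd * T ^ (2 * κ) :=
      one_le_mul_of_one_le_of_one_le hCd (Real.one_le_rpow hT (by positivity))
    have h4 : (Cd * T ^ (2 * κ)) ^ k ≤ (Cd * T ^ (2 * κ)) ^ (4 / δ) := by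
      rw [← Real.rpow_natCast]
      exact Real.rpow_le_rpow_of_exponent_le h3 hk
    calc ‖b n‖ ^ 2 ≤ ((Cd * T ^ (2 * κ)) ^ (4 / δ)) ^ 2 :=
          pow_le_pow_left₀ (norm_nonneg _) (h2.trans h4) 2
      _ = Cd ^ (8 / δ) * T ^ (16 * κ / δ) := by
          rw [← Real.rpow_natCast, ← Real.rpow_mul (by positivity), Real.mul_rpow hCd0.le (by positivity),
            ← Real.rpow_mul hT0.le]
          congr 2
          · push_cast; ring
          · push_cast; ring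
  calc ∑ n ∈ Finset.Ioc M (2 * M), ‖b n‖ ^ 2 ≤ ∑ _n ∈ Finset.Ioc M (2 * M), Cd ^ (8 / δ) * T ^ (16 * κ / δ) :=
        Finset.sum_le_sum h1
    _ = Cd ^ (8 / δ) * (M * T ^ (16 * κ / δ)) := by
        rw [Finset.sum_const, Nat.card_Ioc, nsmul_eq_mul]
        have h2 : 2 * M - M = M := by omega
        rw [h2]
        ring

/-- lower bound for the large value -/
theorem CL1_low {κ δ T σ : ℝ} (hκ : 0 < κ) (hδ : 0 < δ) (hT : 1 ≤ T) (hσ0 : 0 ≤ σ) (hσ : σ ≤ 1) {N k i : ℕ}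
    (hN : 1 ≤ N) (hk1 : 1 ≤ k) (hk : (k : ℝ) ≤ 4 / δ) (hi : i < k) :
    ((2 ^ i * N ^ k : ℕ) : ℝ) ^ (2 * σ) * T ^ (-(16 * κ / δ)) ≤
      (16 : ℝ) ^ (4 / δ) * (((N : ℝ) ^ σ * T ^ (-(2 * κ))) ^ k / k) ^ 2 := by
  have hT0 : 0 < T := by linarith
  have hN0 : (0 : ℝ) < N := by exact_mod_cast hN
  have hk0 : (0 : ℝ) < k := by exact_mod_cast hk1
  have e1 : ((2 ^ i * N ^ k : ℕ) : ℝ) ^ (2 * σ) ≤ 4 ^ k * ((N : ℝ) ^ σ) ^ (2 * k) := by
    push_cast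
    rw [Real.mul_rpow (by positivity) (by positivity)]
    refine mul_le_mul ?_ (le_of_eq ?_) (by positivity) (by positivity)
    · calc ((2 : ℝ) ^ i) ^ (2 * σ) ≤ ((2 : ℝ) ^ k) ^ (2 * σ) :=
            Real.rpow_le_rpow (by positivity) (pow_le_pow_right₀ (by norm_num) hi.le) (by linarith)
        _ ≤ ((2 : ℝ) ^ k) ^ (2 : ℝ) :=
            Real.rpow_le_rpow_of_exponent_le (one_le_pow₀ (by norm_num)) (by linarith)
        _ = 4 ^ k := by
            rw [Real.rpow_two, ← pow_mul, mul_comm, pow_mul]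
            norm_num
    · rw [← Real.rpow_natCast, ← Real.rpow_natCast, ← Real.rpow_mul hN0.le, ← Real.rpow_mul hN0.le]
      congr 1
      push_cast
      ring
  have e2 : T ^ (-(16 * κ / δ)) ≤ (T ^ (-(2 * κ))) ^ (2 * k) := by
    rw [← Real.rpow_natCast, ← Real.rpow_mul hT0.le]
    refine Real.rpow_le_rpow_of_exponent_le hT ?_
    push_cast
    have h1 := mul_le_mul_of_nonneg_left hk (show 0 ≤ 4 * κ by positivity)
    have h2 : 4 * κ * (4 / δ) = 16 * κ / δ := by ring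
    rw [h2] at h1
    linarith
  have e3 : (k : ℝ) ^ 2 * 4 ^ k ≤ (16 : ℝ) ^ (4 / δ) := by
    have h1 : (k : ℝ) ≤ 2 ^ k := by exact_mod_cast (Nat.lt_two_pow_self).le
    have h2 : (k : ℝ) ^ 2 ≤ 4 ^ k := by
      calc (k : ℝ) ^ 2 ≤ (2 ^ k) ^ 2 := pow_le_pow_left₀ hk0.le h1 2
        _ = 4 ^ k := by rw [← pow_mul, mul_comm, pow_mul]; norm_num
    calc (k : ℝ) ^ 2 * 4 ^ k ≤ 4 ^ k * 4 ^ k := mul_le_mul_of_nonneg_right h2 (by positivity)
      _ = 16 ^ k := by rw [← mul_pow]; norm_num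
      _ ≤ (16 : ℝ) ^ (4 / δ) := by
          rw [← Real.rpow_natCast]
          exact Real.rpow_le_rpow_of_exponent_le (by norm_num) hk
  have e4 : (((N : ℝ) ^ σ * T ^ (-(2 * κ))) ^ k / k) ^ 2 * k ^ 2 =
      ((N : ℝ) ^ σ) ^ (2 * k) * (T ^ (-(2 * κ))) ^ (2 * k) := by
    rw [div_pow, div_mul_cancel₀ _ (by positivity), ← pow_mul, ← mul_pow, mul_comm k 2]
  calc ((2 ^ i * N ^ k : ℕ) : ℝ) ^ (2 * σ) * T ^ (-(16 * κ / δ))
      ≤ (4 ^ k * ((N : ℝ) ^ σ) ^ (2 * k)) * (T ^ (-(2 * κ))) ^ (2 * k) :=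
        mul_le_mul e1 e2 (by positivity) (by positivity)
    _ = (k : ℝ) ^ 2 * 4 ^ k * (((N : ℝ) ^ σ * T ^ (-(2 * κ))) ^ k / k) ^ 2 := by
        rw [mul_assoc, ← e4]
        ring
    _ ≤ (16 : ℝ) ^ (4 / δ) * (((N : ℝ) ^ σ * T ^ (-(2 * κ))) ^ k / k) ^ 2 :=
        mul_le_mul_of_nonneg_right e3 (by positivity)

theorem CL1 (hLVS : LVS_stmt) (hCPK : CPK_stmt) (hPWB : PWB_stmt) (hNUM : NUM_stmt) : CL1_stmt := by
  classical
  intro s₀ ε hs₀ hε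
  rcases le_or_gt s₀ 1 with hs1 | hs1
  swap
  · exact ⟨1, one_pos, fun δ _ _ => ⟨1, 1, 1, one_pos, le_rfl, one_pos, fun T H σ _ _ _ h1 h2 => by
      exact absurd (h1.trans h2) (not_le.2 hs1)⟩⟩
  refine ⟨min (ε / 8) (1 / 16), by positivity, fun δ hδ hδ1 => ?_⟩
  have hδ2 : δ ≤ ε / 8 := hδ1.trans (min_le_left _ _)
  have hδ3 : δ ≤ 1 / 16 := hδ1.trans (min_le_right _ _)
  obtain ⟨κ, ε', hκ, hκ1, hε', hnum⟩ := hNUM s₀ (ε / 2) δ hs₀ hs1 (by linarith) hδ (by linarith) hδ3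
  obtain ⟨C₁, hC₁, hlv⟩ := hLVS ε' hε'
  obtain ⟨Cd', hCd', hd'⟩ := divisor_bound (κ / 3) (by positivity)
  obtain ⟨T₁, hcpk⟩ := hCPK δ hδ hδ3
  set Cd := max Cd' 1 with hCd
  have hCd1 : 1 ≤ Cd := le_max_right _ _
  have hCd0 : 0 < Cd := by linarith
  have hd : ∀ n : ℕ, 1 ≤ n → d n ≤ Cd * (n : ℝ) ^ (κ / 3) := fun n hn =>
    (hd' n hn).trans (mul_le_mul_of_nonneg_right (le_max_left _ _) (by positivity))
  set C₂ := Cd ^ (8 / δ) + (16 : ℝ) ^ (4 / δ) with hC₂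
  have hC₂0 : 0 < C₂ := by positivity
  obtain ⟨C, T₂, hC, hn⟩ := hnum C₁ C₂ hC₁ hC₂0
  refine ⟨κ, 4 / δ * C, max (max T₁ T₂) (max 2 (((2 : ℝ) ^ (4 / δ)) ^ (1 / δ))), hκ, hκ1, by positivity, ?_⟩
  intro T H σ hT hH hHT hσ hσ1 N a W hN1 hN2 ha hW1 hW2 hW3
  have hTT1 : T₁ ≤ T := ((le_max_left _ _).trans (le_max_left _ _)).trans hT
  have hTT2 : T₂ ≤ T := ((le_max_right _ _).trans (le_max_left _ _)).trans hT
  have hT2 : 2 ≤ T := ((le_max_left _ _).trans (le_max_right _ _)).trans hT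
  have hTp : ((2 : ℝ) ^ (4 / δ)) ^ (1 / δ) ≤ T := ((le_max_right _ _).trans (le_max_right _ _)).trans hT
  have hT1 : 1 ≤ T := by linarith
  have hT0 : 0 < T := by linarith
  have hH1 : 1 ≤ H := (Real.one_le_rpow hT1 (by norm_num)).trans hH
  have hH0 : 0 < H := by linarith
  have h2T : (2 : ℝ) ^ (4 / δ) ≤ T ^ δ := by
    calc (2 : ℝ) ^ (4 / δ) = (((2 : ℝ) ^ (4 / δ)) ^ (1 / δ)) ^ δ := by
          rw [← Real.rpow_mul (by positivity), one_div_mul_cancel hδ.ne', Real.rpow_one]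
      _ ≤ T ^ δ := Real.rpow_le_rpow (by positivity) hTp hδ.le
  have hN0 : (0 : ℝ) < N := lt_of_lt_of_le (by positivity) hN1
  have hN : 1 ≤ N := by
    have : 0 < N := by exact_mod_cast hN0
    omega
  obtain ⟨k, hk1, hk, hkH, hkH2⟩ := hcpk T H hTT1 hH hHT N hN1 hN2
  have hk0 : (0 : ℝ) < k := by exact_mod_cast hk1
  set V : ℝ := (N : ℝ) ^ σ * T ^ (-(2 * κ)) with hV
  have hV0 : 0 < V := by positivity
  obtain ⟨b, hb, hbW⟩ := hPWB N a (T ^ κ) V k hN (by positivity) hV0.le hk1 ha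
  set V₁ : ℝ := V ^ k / k with hV₁
  have hV₁0 : 0 < V₁ := by positivity
  -- each block
  have hblock : ∀ i ∈ Finset.range k,
      ((W.filter fun t => V₁ ≤ ‖DP (2 ^ i * N ^ k) b t‖).card : ℝ) ≤ C * T ^ (ε / 2) * H ^ (2 * (1 - σ)) := by
    intro i hi
    rw [Finset.mem_range] at hi
    set M : ℕ := 2 ^ i * N ^ k with hM
    have hMN : N ^ k ≤ M := by
      rw [hM]
      exact Nat.le_mul_of_pos_left _ (by positivity)
    have hM1 : 1 ≤ M := (Nat.one_le_pow _ _ hN).trans hMN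
    have hMlow : H ^ (1 / 2 : ℝ) ≤ (M : ℝ) := hkH.trans (by exact_mod_cast hMN)
    have hMup : (M : ℝ) ≤ H * T ^ (2 * δ) := by
      have h1 : (2 : ℝ) ^ i ≤ T ^ δ := by
        refine le_trans ?_ h2T
        calc (2 : ℝ) ^ i ≤ 2 ^ k := pow_le_pow_right₀ (by norm_num) hi.le
          _ = (2 : ℝ) ^ (k : ℝ) := (Real.rpow_natCast _ _).symm
          _ ≤ 2 ^ (4 / δ) := Real.rpow_le_rpow_of_exponent_le (by norm_num) hk
      calc (M : ℝ) = 2 ^ i * (N : ℝ) ^ k := by rw [hM]; push_cast; ring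
        _ ≤ T ^ δ * (H * T ^ δ) := mul_le_mul h1 hkH2 (by positivity) (by positivity)
        _ = H * T ^ (2 * δ) := by rw [two_mul, Real.rpow_add hT0]; ring
    have hM3 : ((2 * M : ℕ) : ℝ) ≤ T ^ (3 : ℝ) := by
      push_cast
      have h1 : T ^ (2 * δ) ≤ T := by
        calc T ^ (2 * δ) ≤ T ^ (1 : ℝ) := Real.rpow_le_rpow_of_exponent_le hT1 (by linarith)
          _ = T := Real.rpow_one T
      calc 2 * (M : ℝ) ≤ T * (T * T) := by
            refine mul_le_mul hT2 (hMup.trans ?_) (by positivity) hT0.le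
            exact mul_le_mul hHT h1 (by positivity) hT0.le
        _ = T ^ (3 : ℝ) := by
            rw [show (3 : ℝ) = ((3 : ℕ) : ℝ) by norm_num, Real.rpow_natCast]
            ring
    set G : ℝ := ∑ n ∈ Finset.Ioc M (2 * M), ‖b n‖ ^ 2 with hG
    have hG0 : 0 ≤ G := Finset.sum_nonneg fun _ _ => by positivity
    have hG1 : G ≤ C₂ * (M * T ^ (16 * κ / δ)) := by
      refine (CL1_coef hκ hδ hT1 hCd1 hd hk hM3 hb).trans ?_
      refine mul_le_mul_of_nonneg_right ?_ (by positivity)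
      rw [hC₂]
      have : (0 : ℝ) < 16 ^ (4 / δ) := by positivity
      linarith
    have hL1 : (M : ℝ) ^ (2 * σ) * T ^ (-(16 * κ / δ)) ≤ C₂ * V₁ ^ 2 := by
      refine (CL1_low hκ hδ hT1 (by linarith) hσ1 hN hk1 hk hi).trans ?_
      refine mul_le_mul_of_nonneg_right ?_ (by positivity)
      rw [hC₂]
      have : (0 : ℝ) < Cd ^ (8 / δ) := by positivity
      linarith
    obtain ⟨n1, n2⟩ := hn T H σ M G V₁ hTT2 hH hHT hσ hσ1 hMlow hMup hG0 hG1 hV₁0 hL1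
    have hHT1 : 1 ≤ H * T ^ (2 * δ) := one_le_mul_of_one_le_of_one_le hH1 (Real.one_le_rpow hT1 (by positivity))
    have hHT2 : H ≤ H * T ^ (2 * δ) := le_mul_of_one_le_right hH0.le (Real.one_le_rpow hT1 (by positivity))
    refine (hlv (H * T ^ (2 * δ)) T M b V₁ (W.filter fun t => V₁ ≤ ‖DP M b t‖) hHT1 hM1 hMup hV₁0 ?_ ?_ ?_ n1).trans n2
    · intro t ht
      have h1 := hW1 t (Finset.mem_filter.1 ht).1
      exact ⟨h1.1, by linarith [h1.2]⟩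
    · intro t ht s hs hts
      exact hW2 t (Finset.mem_filter.1 ht).1 s (Finset.mem_filter.1 hs).1 hts
    · intro t ht
      exact (Finset.mem_filter.1 ht).2
  have hsub : W ⊆ (Finset.range k).biUnion fun i => W.filter fun t => V₁ ≤ ‖DP (2 ^ i * N ^ k) b t‖ := by
    intro t ht
    obtain ⟨i, hi, h1⟩ := hbW t (hW3 t ht)
    exact Finset.mem_biUnion.2 ⟨i, hi, Finset.mem_filter.2 ⟨ht, h1⟩⟩
  have hcard : (W.card : ℝ) ≤ ∑ i ∈ Finset.range k, ((W.filter fun t => V₁ ≤ ‖DP (2 ^ i * N ^ k) b t‖).card : ℝ) := by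
    have h1 := (Finset.card_le_card hsub).trans Finset.card_biUnion_le
    exact_mod_cast h1
  refine hcard.trans ((Finset.sum_le_sum hblock).trans ?_)
  rw [Finset.sum_const, Finset.card_range, nsmul_eq_mul]
  have h1 : T ^ (ε / 2) ≤ T ^ ε := Real.rpow_le_rpow_of_exponent_le hT1 (by linarith)
  have h2 : 0 < H ^ (2 * (1 - σ)) := by positivity
  calc (k : ℝ) * (C * T ^ (ε / 2) * H ^ (2 * (1 - σ))) ≤ 4 / δ * (C * T ^ ε * H ^ (2 * (1 - σ))) := by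
        refine mul_le_mul hk ?_ (by positivity) (by positivity)
        exact mul_le_mul_of_nonneg_right (mul_le_mul_of_nonneg_left h1 hC.le) h2.le
    _ = 4 / δ * C * T ^ ε * H ^ (2 * (1 - σ)) := by ring

end Pool.Agent.LDH
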