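import Mathlib
import Pool.Agent.helper5.LDH.Spec

/-!
# Row E2 of project LDH (MP_4467b5_nt): second derivative estimate
-/

set_option autoImplicit false

open Complex MeasureTheory

namespace Pool.Agent.LDH

open Pool.Agent.helper84.DM Pool.Agent.helper78.ED Pool.Agent.DH

theorem E2_conj (x : ℝ) : (starRingEnd ℂ) (ee x) = ee (-x) := by
  unfold ee
  rw [← Complex.exp_conj, map_mul, Complex.conj_I, Complex.conj_ofReal]
  congr 1
  push_cast
  ring

/-- `PH` as a value of `ee` -/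
theorem E2_PH (t : ℝ) (h n : ℕ) (hn : 1 ≤ n) : PH t h n = ee (-(t / (2 * Real.pi) * lg h n)) := by
  have hn0 : ((n : ℕ) : ℂ) ≠ 0 := by exact_mod_cast (by omega : n ≠ 0)
  have hn1 : ((n + h : ℕ) : ℂ) ≠ 0 := by exact_mod_cast (by omega : n + h ≠ 0)
  have h0 : (0 : ℝ) < n := by exact_mod_cast hn
  have h1 : (0 : ℝ) < ((n + h : ℕ) : ℝ) := by exact_mod_cast (by omega : 0 < n + h)
  unfold PH lg
  rw [Complex.cpow_def_of_ne_zero hn0, Complex.cpow_def_of_ne_zero hn1, ← Complex.exp_conj,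
    ← Complex.exp_add, ← Complex.natCast_log, ← Complex.natCast_log]
  unfold ee
  congr 1
  rw [Real.log_div h1.ne' h0.ne']
  simp only [map_mul, map_neg, Complex.conj_I, Complex.conj_ofReal]
  push_cast
  have hpi : (Real.pi : ℂ) ≠ 0 := by exact_mod_cast Real.pi_ne_zero
  field_simp
  ring

/-- the norm of the sum -/
theorem E2_norm (t : ℝ) (h a b : ℕ) :
    ‖∑ n ∈ Finset.Ioc a b, PH t h n‖ = ‖∑ n ∈ Finset.Ioc a b, ee (t / (2 * Real.pi) * lg h n)‖ := by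
  rw [← RCLike.norm_conj, map_sum]
  congr 1
  refine Finset.sum_congr rfl fun n hn => ?_
  rw [Finset.mem_Ioc] at hn
  rw [E2_PH t h n (by omega), E2_conj, neg_neg]

theorem E2 (hV2 : V2_stmt) (hPHD : PHD_stmt) : E2_stmt := by
  refine ⟨640 * 12, by norm_num, ?_⟩
  intro t N h a b ht h1 hN ha hab hb
  have hN1 : 1 ≤ N := h1.trans hN
  have hNr : (0 : ℝ) < N := by exact_mod_cast hN1
  have hhr : (0 : ℝ) < h := by exact_mod_cast h1
  have ht0 : (0 : ℝ) < t := by linarith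
  have hpi := Real.pi_pos
  have hpi4 := Real.pi_le_four
  have hpi3 := Real.pi_gt_three
  set A : ℝ := t * h / (N : ℝ) ^ 3 with hA
  have hA0 : 0 < A := by positivity
  set l : ℝ := t / (2 * Real.pi) * (h / (16 * (N : ℝ) ^ 3)) with hl
  have hl0 : 0 < l := by positivity
  have hlA : l = A / (32 * Real.pi) := by
    rw [hl, hA]
    field_simp
    ring
  have hl1 : l ≤ A := by
    rw [hlA]
    exact div_le_self hA0.le (by nlinarith)
  have hl2 : A / 128 ≤ l := by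
    rw [hlA]
    exact div_le_div_of_nonneg_left hA0.le (by positivity) (by linarith)
  rw [E2_norm]
  have key := hV2 (fun n => t / (2 * Real.pi) * lg h n) a b l 32 hab hl0 (by norm_num) (by
    intro n hn1 hn2
    have h3 := (hPHD N h n h1 hN (by omega)).1 (by omega)
    have hc : (0 : ℝ) ≤ t / (2 * Real.pi) := by positivity
    have h4 := mul_le_mul_of_nonneg_left h3.1 hc
    have h5 := mul_le_mul_of_nonneg_left h3.2 hc
    refine ⟨?_, ?_⟩
    · calc l ≤ t / (2 * Real.pi) * (lg h (n + 2) - 2 * lg h (n + 1) + lg h n) := h4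
        _ = _ := by ring
    · calc t / (2 * Real.pi) * lg h (n + 2) - 2 * (t / (2 * Real.pi) * lg h (n + 1)) +
            t / (2 * Real.pi) * lg h n
          = t / (2 * Real.pi) * (lg h (n + 2) - 2 * lg h (n + 1) + lg h n) := by ring
        _ ≤ t / (2 * Real.pi) * (2 * h / (N : ℝ) ^ 3) := h5
        _ = 32 * l := by rw [hl]; field_simp; ring)
  refine key.trans ?_
  have hba : (b : ℝ) - a ≤ N := by
    have h5 : (b : ℝ) ≤ 2 * N := by exact_mod_cast hb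
    have h6 : (N : ℝ) ≤ a := by exact_mod_cast ha
    linarith
  have hba0 : 0 ≤ (b : ℝ) - a := by
    have h5 : (a : ℝ) ≤ b := by exact_mod_cast hab
    linarith
  have e1 : l ^ (1 / 2 : ℝ) ≤ A ^ (1 / 2 : ℝ) := Real.rpow_le_rpow hl0.le hl1 (by norm_num)
  have e2 : l ^ (-(1 / 2) : ℝ) ≤ 12 * A ^ (-(1 / 2) : ℝ) := by
    have h5 : l ^ (-(1 / 2) : ℝ) ≤ (A / 128) ^ (-(1 / 2) : ℝ) :=
      Real.rpow_le_rpow_of_nonpos (by positivity) hl2 (by norm_num)
    refine h5.trans ?_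
    rw [Real.div_rpow hA0.le (by norm_num), div_eq_mul_inv, ← Real.rpow_neg (by norm_num), neg_neg, mul_comm]
    refine mul_le_mul_of_nonneg_right ?_ (Real.rpow_nonneg hA0.le _)
    rw [← Real.sqrt_eq_rpow]
    rw [Real.sqrt_le_left (by norm_num)]
    norm_num
  have hN3 : ∀ x : ℝ, ((N : ℝ) ^ 3) ^ x = (N : ℝ) ^ (3 * x) := fun x => by
    rw [← Real.rpow_natCast, ← Real.rpow_mul hNr.le]
    norm_num
  have e3 : (N : ℝ) * A ^ (1 / 2 : ℝ) = t ^ (1 / 2 : ℝ) * (h : ℝ) ^ (1 / 2 : ℝ) * (N : ℝ) ^ (-(1 / 2) : ℝ) := by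
    rw [hA, Real.div_rpow (by positivity) (by positivity), Real.mul_rpow ht0.le hhr.le, hN3, div_eq_mul_inv,
      ← Real.rpow_neg hNr.le]
    have h5 : (N : ℝ) ^ (-(1 / 2) : ℝ) = N * (N : ℝ) ^ (-(3 * (1 / 2)) : ℝ) := by
      nth_rewrite 2 [← Real.rpow_one (N : ℝ)]
      rw [← Real.rpow_add hNr]
      norm_num
    rw [h5]
    ring
  have e4 : A ^ (-(1 / 2) : ℝ) = (N : ℝ) ^ (3 / 2 : ℝ) * t ^ (-(1 / 2) : ℝ) * (h : ℝ) ^ (-(1 / 2) : ℝ) := by
    rw [hA, Real.div_rpow (by positivity) (by positivity), Real.mul_rpow ht0.le hhr.le, hN3, div_eq_mul_inv,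
      ← Real.rpow_neg hNr.le]
    have h5 : (-(3 * -(1 / 2)) : ℝ) = 3 / 2 := by norm_num
    rw [h5]
    ring
  have e5 : ((b : ℝ) - a) * l ^ (1 / 2 : ℝ) ≤ t ^ (1 / 2 : ℝ) * (h : ℝ) ^ (1 / 2 : ℝ) * (N : ℝ) ^ (-(1 / 2) : ℝ) := by
    rw [← e3]
    exact mul_le_mul hba e1 (Real.rpow_nonneg hl0.le _) hNr.le
  rw [e4] at e2
  have p1 : 0 ≤ t ^ (1 / 2 : ℝ) * (h : ℝ) ^ (1 / 2 : ℝ) * (N : ℝ) ^ (-(1 / 2) : ℝ) := by positivity
  have p2 : 0 ≤ (N : ℝ) ^ (3 / 2 : ℝ) * t ^ (-(1 / 2) : ℝ) * (h : ℝ) ^ (-(1 / 2) : ℝ) := by positivity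
  nlinarith

end Pool.Agent.LDH
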