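import Mathlib
import Pool.Agent.helper48.LDH.E2

/-!
# Row E3 of project LDH (MP_4467b5_nt): third derivative estimate
-/

set_option autoImplicit false

open Complex MeasureTheory

namespace Pool.Agent.LDH

open Pool.Agent.helper84.DM Pool.Agent.helper78.ED Pool.Agent.DH

/-- the norm of the sum, other sign -/
theorem E3_norm (t : ℝ) (h a b : ℕ) :
    ‖∑ n ∈ Finset.Ioc a b, PH t h n‖ = ‖∑ n ∈ Finset.Ioc a b, ee (-(t / (2 * Real.pi) * lg h n))‖ := by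
  congr 1
  refine Finset.sum_congr rfl fun n hn => ?_
  rw [Finset.mem_Ioc] at hn
  rw [E2_PH t h n (by omega)]

theorem E3 (hV3 : V3_stmt) (hPHD : PHD_stmt) : E3_stmt := by
  refine ⟨2560 * 3, by norm_num, ?_⟩
  intro t N h a b ht h1 hN ha hab hb
  have hN1 : 1 ≤ N := h1.trans hN
  have hNr : (0 : ℝ) < N := by exact_mod_cast hN1
  have hhr : (0 : ℝ) < h := by exact_mod_cast h1
  have ht0 : (0 : ℝ) < t := by linarith
  have hpi := Real.pi_pos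
  have hpi4 := Real.pi_le_four
  have hpi3 := Real.pi_gt_three
  set A : ℝ := t * h / (N : ℝ) ^ 4 with hA
  have hA0 : 0 < A := by positivity
  set l : ℝ := t / (2 * Real.pi) * (3 * h / (64 * (N : ℝ) ^ 4)) with hl
  have hl0 : 0 < l := by positivity
  have hlA : l = A / (128 / 3 * Real.pi) := by
    rw [hl, hA]
    field_simp
    ring
  have hl1 : l ≤ A := by
    rw [hlA]
    exact div_le_self hA0.le (by nlinarith)
  have hl2 : A / 256 ≤ l := by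
    rw [hlA]
    exact div_le_div_of_nonneg_left hA0.le (by positivity) (by linarith)
  rw [E3_norm]
  have key := hV3 (fun n => -(t / (2 * Real.pi) * lg h n)) a b l 128 hab hl0 (by norm_num) (by
    intro n hn1 hn2
    have h3 := (hPHD N h n h1 hN (by omega)).2 (by omega)
    have hc : (0 : ℝ) ≤ t / (2 * Real.pi) := by positivity
    have h4 := mul_le_mul_of_nonneg_left h3.1 hc
    have h5 := mul_le_mul_of_nonneg_left h3.2 hc
    refine ⟨?_, ?_⟩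
    · calc l ≤ t / (2 * Real.pi) * (-(lg h (n + 3) - 3 * lg h (n + 2) + 3 * lg h (n + 1) - lg h n)) := h4
        _ = _ := by ring
    · calc -(t / (2 * Real.pi) * lg h (n + 3)) - 3 * -(t / (2 * Real.pi) * lg h (n + 2)) +
            3 * -(t / (2 * Real.pi) * lg h (n + 1)) - -(t / (2 * Real.pi) * lg h n)
          = t / (2 * Real.pi) * (-(lg h (n + 3) - 3 * lg h (n + 2) + 3 * lg h (n + 1) - lg h n)) := by ring
        _ ≤ t / (2 * Real.pi) * (6 * h / (N : ℝ) ^ 4) := h5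
        _ = 128 * l := by rw [hl]; field_simp; ring)
  refine key.trans ?_
  have hba : (b : ℝ) - a ≤ N := by
    have h5 : (b : ℝ) ≤ 2 * N := by exact_mod_cast hb
    have h6 : (N : ℝ) ≤ a := by exact_mod_cast ha
    linarith
  have hba0 : 0 ≤ (b : ℝ) - a := by
    have h5 : (a : ℝ) ≤ b := by exact_mod_cast hab
    linarith
  have e1 : l ^ (1 / 6 : ℝ) ≤ A ^ (1 / 6 : ℝ) := Real.rpow_le_rpow hl0.le hl1 (by norm_num)
  have e2 : l ^ (-(1 / 6) : ℝ) ≤ 3 * A ^ (-(1 / 6) : ℝ) := by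
    have h5 : l ^ (-(1 / 6) : ℝ) ≤ (A / 256) ^ (-(1 / 6) : ℝ) :=
      Real.rpow_le_rpow_of_nonpos (by positivity) hl2 (by norm_num)
    refine h5.trans ?_
    rw [Real.div_rpow hA0.le (by norm_num), div_eq_mul_inv, ← Real.rpow_neg (by norm_num), neg_neg, mul_comm]
    refine mul_le_mul_of_nonneg_right ?_ (Real.rpow_nonneg hA0.le _)
    calc (256 : ℝ) ^ (1 / 6 : ℝ) ≤ ((3 : ℝ) ^ (6 : ℝ)) ^ (1 / 6 : ℝ) := by
          refine Real.rpow_le_rpow (by norm_num) ?_ (by norm_num)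
          rw [show (6 : ℝ) = ((6 : ℕ) : ℝ) by norm_num, Real.rpow_natCast]
          norm_num
      _ = 3 := by
          rw [← Real.rpow_mul (by norm_num)]
          norm_num
  have hN3 : ∀ x : ℝ, ((N : ℝ) ^ 4) ^ x = (N : ℝ) ^ (4 * x) := fun x => by
    rw [← Real.rpow_natCast, ← Real.rpow_mul hNr.le]
    norm_num
  have e3 : (N : ℝ) * A ^ (1 / 6 : ℝ) = t ^ (1 / 6 : ℝ) * (h : ℝ) ^ (1 / 6 : ℝ) * (N : ℝ) ^ (1 / 3 : ℝ) := by
    rw [hA, Real.div_rpow (by positivity) (by positivity), Real.mul_rpow ht0.le hhr.le, hN3, div_eq_mul_inv,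
      ← Real.rpow_neg hNr.le]
    have h5 : (N : ℝ) ^ (1 / 3 : ℝ) = N * (N : ℝ) ^ (-(4 * (1 / 6)) : ℝ) := by
      nth_rewrite 2 [← Real.rpow_one (N : ℝ)]
      rw [← Real.rpow_add hNr]
      norm_num
    rw [h5]
    ring
  have e4 : (N : ℝ) ^ (1 / 2 : ℝ) * A ^ (-(1 / 6) : ℝ) =
      (N : ℝ) ^ (7 / 6 : ℝ) * t ^ (-(1 / 6) : ℝ) * (h : ℝ) ^ (-(1 / 6) : ℝ) := by
    rw [hA, Real.div_rpow (by positivity) (by positivity), Real.mul_rpow ht0.le hhr.le, hN3,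
      div_eq_mul_inv (t ^ (-(1 / 6) : ℝ) * (h : ℝ) ^ (-(1 / 6) : ℝ)), ← Real.rpow_neg hNr.le]
    have h5 : (N : ℝ) ^ (7 / 6 : ℝ) = (N : ℝ) ^ (1 / 2 : ℝ) * (N : ℝ) ^ (-(4 * -(1 / 6)) : ℝ) := by
      rw [← Real.rpow_add hNr]
      norm_num
    rw [h5]
    ring
  have e5 : ((b : ℝ) - a) * l ^ (1 / 6 : ℝ) ≤ t ^ (1 / 6 : ℝ) * (h : ℝ) ^ (1 / 6 : ℝ) * (N : ℝ) ^ (1 / 3 : ℝ) := by
    rw [← e3]
    exact mul_le_mul hba e1 (Real.rpow_nonneg hl0.le _) hNr.le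
  have e6 : ((b : ℝ) - a) ^ (1 / 2 : ℝ) * l ^ (-(1 / 6) : ℝ) ≤
      3 * ((N : ℝ) ^ (7 / 6 : ℝ) * t ^ (-(1 / 6) : ℝ) * (h : ℝ) ^ (-(1 / 6) : ℝ)) := by
    rw [← e4]
    calc ((b : ℝ) - a) ^ (1 / 2 : ℝ) * l ^ (-(1 / 6) : ℝ) ≤ (N : ℝ) ^ (1 / 2 : ℝ) * (3 * A ^ (-(1 / 6) : ℝ)) :=
          mul_le_mul (Real.rpow_le_rpow hba0 hba (by norm_num)) e2 (Real.rpow_nonneg hl0.le _) (by positivity)
      _ = _ := by ring
  have p1 : 0 ≤ t ^ (1 / 6 : ℝ) * (h : ℝ) ^ (1 / 6 : ℝ) * (N : ℝ) ^ (1 / 3 : ℝ) := by positivity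
  have p2 : 0 ≤ (N : ℝ) ^ (7 / 6 : ℝ) * t ^ (-(1 / 6) : ℝ) * (h : ℝ) ^ (-(1 / 6) : ℝ) := by positivity
  nlinarith

end Pool.Agent.LDH
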